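import Pool.Agent.Lib.MP_82d824_gt.Link

/-!
# Immersions with prescribed total absolute curvature

Let `M` be a compact connected smooth `n`-manifold, `n ≥ 1`, and `f : M → ℝ^N`, `N ≥ 2`, a smooth immersion such that some height
function `⟨e, f⟩` has at most `m` critical points, all nondegenerate. Then for every real `τ > m` there is a smooth immersion
`F : M → ℝ^N` of total absolute curvature exactly `τ`. For an exotic sphere `M` of dimension `n` with an immersion `g` into
`ℝ^(n+1)` and a smooth function `φ` with two critical points, both nondegenerate, `f = (g, φ)`, `m = 2`, `τ = 4` is the statement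
of Q1.
-/

set_option autoImplicit false

open TACS

namespace Pool.Agent.Results.MP_82d824_gt.AllCurvatures

theorem result :
    ∀ (n N : ℕ) (M : Type) [TopologicalSpace M] [CompactSpace M] [T2Space M] [ConnectedSpace M]
      [ChartedSpace (E n) M] [IsManifold (I n) sm M] (f : M → E N) (e : E N) (m : ℕ) (τ : ℝ),
      1 ≤ n → 2 ≤ N → Imm n f → MorseLe n (fun x => inner ℝ e (f x)) m → (m : ℝ) < τ →
      ∃ F : M → E N, Imm n F ∧ TA n F = ENNReal.ofReal τ * area N :=
  fun _ _ _ _ _ _ _ _ _ _ _ _ _ hn hN hf he hτ => main hn hN hf he hτ

end Pool.Agent.Results.MP_82d824_gt.AllCurvatures
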