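import Pool.Agent.Lib.MP_82d824_gt.Link

/-!
# Reduction of Q1 to classical facts on exotic spheres

If one exotic sphere `M` of some dimension `n ≥ 1` immerses in `ℝ^(n+1)` and carries a smooth function with at most two critical
points, both nondegenerate, then some exotic sphere has a smooth immersion in codimension two of total absolute curvature exactly
`4`, which is Q1 (`TACS.q1_iff_frozen`: `Q1` is literally the frozen statement). By Kervaire-Milnor and Hirsch, and by Smale, every
exotic sphere of dimension at least 7 has both properties.
-/

set_option autoImplicit false

open TACS

namespace Pool.Agent.Results.MP_82d824_gt.ExoticReduction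

theorem result : ExoticWithMorse → Q1 :=
  q1_of

end Pool.Agent.Results.MP_82d824_gt.ExoticReduction
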